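import Pool.Agent.V11167.VisD

/-! MP_9521de_co, Q1 (disproof). -/

namespace Pool.Agent.Results.MP_9521de_co.VisBoundary

open Pool.Agent.V11167.Vis

theorem result : ∀ lam rho : ℝ, 0 < lam → lam < 1 → 0 < rho → rho < 1 →
    ∀ c C : ℝ, 0 < c → 0 < C →
    ∃ ε : ℝ, 0 < ε ∧ ε ≤ 1 ∧ ∃ S : Space, S.Adm lam rho ∧ S.IsVisible ε ∧
      C * Real.sqrt ε * Space.area S.free < Space.area (S.E c ε) := by
  intro lam rho _ hl1 hr0 hr1 c C hc hC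
  obtain ⟨ε, h0, h1, S, ⟨h2, h3⟩, h4, h5⟩ := main rho hr1 hr0 c C hc hC
  refine ⟨ε, h0, h1, S, ⟨?_, ?_, h3⟩, h4, h5⟩
  · have := S.hx
    rw [← h2]; nlinarith
  · have := S.hx
    rw [← h2]; nlinarith

end Pool.Agent.Results.MP_9521de_co.VisBoundary
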